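import Pool.Agent.H.MP_5fee02_an.B

open Set Filter Topology

namespace Pool.Agent.Results.MP_5fee02_an.NoLimit

/-- `v` is the normalised solution of the viscous cell problem on the circle, with constant `c`. -/
def IsSol (H : ℝ × ℝ → ℝ) (ε c : ℝ) (v : ℝ → ℝ) : Prop :=
  ContDiff ℝ 2 v ∧ Function.Periodic v 1 ∧ v 0 = 0 ∧
    ∀ x, H (x, deriv v x) = ε * deriv (deriv v) x + c

open Pool.Agent.H.MP_5fee02_an in
theorem result :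
    ∃ H : ℝ × ℝ → ℝ, ContDiff ℝ 2 H ∧ (∀ x p, H (x + 1, p) = H (x, p)) ∧
      (∀ M : ℝ, ∃ R : ℝ, ∀ x p, R ≤ |p| →
        M ≤ 1 / 2 * H (x, p) ^ 2 + deriv (fun y => H (y, p)) x * p) ∧
      (∃ (ε : ℕ → ℝ) (c : ℕ → ℝ) (v : ℕ → ℝ → ℝ), (∀ k, ε k ∈ Ioo (0 : ℝ) 1) ∧
        Tendsto ε atTop (𝓝 0) ∧ (∀ k, IsSol H (ε k) (c k) (v k)) ∧
        ¬ ∃ w : ℝ → ℝ, TendstoUniformly v w atTop) ∧
      ∀ (c : ℝ → ℝ) (v : ℝ → ℝ → ℝ), (∀ ε ∈ Ioo (0 : ℝ) 1, IsSol H ε (c ε) (v ε)) →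
        ¬ ∃ w : ℝ → ℝ, TendstoUniformly v w (𝓝[>] 0) := by
  have hε : ∀ k, ep k ∈ Ioo (0 : ℝ) 1 := fun k => ⟨ep_pos k, by linarith [ep_le k, tw_le k]⟩
  have h0 : ∀ k, vv k 0 = 0 := fun k => intervalIntegral.integral_same
  refine ⟨HH, HH_smooth, HH_per, fun M => ⟨|M| + 3, fun x p hp => ?_⟩,
    ⟨ep, fun _ => 0, vv, hε, ep_tend.mono_right nhdsWithin_le_nhds,
      fun k => ⟨vv_smooth k, vv_per k, h0 k, vv_eq k⟩,
      fun ⟨w, hw⟩ => no_limit w hw.tendsto_at⟩, ?_⟩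
  · have h1 := abs_nonneg M
    have h2 := le_abs_self M
    simp only [HH_big _ (show 3 ≤ |p| by linarith), deriv_const, zero_mul, add_zero]
    rw [← sq_abs p]
    have h3 : 3 * |p| ≤ |p| ^ 2 := by nlinarith
    nlinarith
  · rintro c v h ⟨w, hw⟩
    refine no_limit w fun x => ((hw.tendsto_at x).comp ep_tend).congr fun k => ?_
    obtain ⟨h1, h2, h3, h4⟩ := h _ (hε k)
    exact congrFun (unique HH_smooth (ep_pos k) h1 (vv_smooth k) h2 (vv_per k)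
      (h3.trans (h0 k).symm) h4 (vv_eq k)) x

end Pool.Agent.Results.MP_5fee02_an.NoLimit
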